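import Mathlib
import Pool.Agent.V11167.SphI

/-!
MP_7578b2_co, Q1: for `d = 2` the class of countable `d`-sphere graphs has no strongly universal
element; in particular the statement that for every `d > 1` there is one is false.
-/

namespace Pool.Agent.Results.MP_7578b2_co.NoUniversalSphereGraph

open Pool.Agent.V11167.Sph

theorem result : ¬ HasStronglyUniversal 2 ∧ ¬ ∀ d : ℕ, 1 < d → HasStronglyUniversal d :=
  ⟨no_universal, fun h => no_universal (h 2 (by norm_num))⟩

end Pool.Agent.Results.MP_7578b2_co.NoUniversalSphereGraph
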